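import Pool.Agent.Helper80.AD.GoalsB
import Pool.Agent.Helper80.AD.Le

/-!
# Project AD (MP_6af536_nt), packet TLN: the functions `|⟨w, L⟩|` are limits.
-/

set_option autoImplicit false

open MvPolynomial Filter Topology

noncomputable section

namespace Pool.Agent.Helper77.AD

open Pool.Agent.Helper80.HD Pool.Agent.Helper80.AD

section field

variable {K : Type} [Field K] [Algebra K ℂ]

theorem alg_trans {F E₀ E : IntermediateField K ℂ} (h0 : ∀ a ∈ F, IsAlgebraic E₀ a)
    (h1 : ∀ a ∈ E₀, IsAlgebraic E a) : ∀ a ∈ F, IsAlgebraic E a := by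
  intro a ha
  obtain ⟨p, hp, hpa⟩ := h0 a ha
  let φ : E₀ →+* algebraicClosure E ℂ :=
    { toFun := fun z => ⟨z, mem_algebraicClosure_iff.2 (h1 z z.2)⟩
      map_one' := rfl
      map_mul' := fun _ _ => rfl
      map_zero' := rfl
      map_add' := fun _ _ => rfl }
  have h2 : IsAlgebraic (algebraicClosure E ℂ) a := by
    refine ⟨p.map φ, ?_, ?_⟩
    · rwa [Ne, Polynomial.map_eq_zero]
    · rw [Polynomial.aeval_def, Polynomial.eval₂_map]
      exact hpa
  exact h2.restrictScalars E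

theorem alg_adjoin {S : Set ℂ} {E : IntermediateField K ℂ} (h1 : ∀ a ∈ S, IsAlgebraic E a) :
    ∀ a ∈ IntermediateField.adjoin K S, IsAlgebraic E a := by
  have h2 : IntermediateField.adjoin K S ≤ (algebraicClosure E ℂ).restrictScalars K :=
    IntermediateField.adjoin_le_iff.2 fun a ha => mem_algebraicClosure_iff.2 (h1 a ha)
  exact fun a ha => mem_algebraicClosure_iff.1 (h2 ha)

/-- the coordinates of a normalized vector are in the field of the ratios -/
theorem mem_ratio {M : ℕ} {y : Fin (M + 1) → ℂ} (h0 : y 0 = 1) (j : Fin (M + 1)) : y j ∈ ratioField K y := by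
  refine IntermediateField.subset_adjoin K _ ⟨j, 0, ?_⟩
  rw [h0, div_one]

theorem alg_of_zpow {E : IntermediateField K ℂ} {x : ℂ} {n : ℤ} (hn : n ≠ 0) (h : x ^ n ∈ E) :
    IsAlgebraic E x := by
  have h1 : x ^ n.natAbs ∈ E := by
    rcases Int.natAbs_eq n with h2 | h2
    · rw [h2, zpow_natCast] at h
      exact h
    · rw [h2, zpow_neg, zpow_natCast] at h
      have := E.inv_mem h
      rwa [inv_inv] at this
  have h3 : 0 < n.natAbs := Int.natAbs_pos.2 hn
  have h4 : IsAlgebraic E (x ^ n.natAbs) := isAlgebraic_algebraMap (⟨_, h1⟩ : E)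
  exact IsAlgebraic.of_pow h3 h4

end field

section

variable {K : Type} [Field K] [Algebra K ℂ] {F : IntermediateField K ℂ} {N : ℕ}

/-- the modified vector -/
def yv (x : Fin (N + 2) → F) (g : F) : Fin (N + 2) → F := Function.update x 1 g

theorem yv_zero (x : Fin (N + 2) → F) (g : F) : yv x g 0 = x 0 := by
  unfold yv
  rw [Function.update_of_ne (by simp)]

theorem yv_one (x : Fin (N + 2) → F) (g : F) : yv x g 1 = g := by
  unfold yv
  rw [Function.update_self]

theorem yv_other (x : Fin (N + 2) → F) (g : F) (j : Fin (N + 2)) (hj : j ≠ 1) : yv x g j = x j := by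
  unfold yv
  rw [Function.update_of_ne hj]

theorem big_yv (x₀ : BV F (N + 1)) (c : Fin (N + 1) → K) (h0 : x₀.1 0 = 1) (hx : ∀ j, x₀.1 j ≠ 0)
    (hc : ∀ j, c j ≠ 0) (w : Fin (N + 1) ⊕ Fin (N + 1) → ℤ) (hw : w (Sum.inl 0) ≠ 0) :
    Big K F (cv (yv x₀.1 (chr (tor x₀ c) w))) := by
  set g := chr (tor x₀ c) w with hg
  set y := yv x₀.1 g with hy
  have hy0 : cv y 0 = 1 := by
    change ((yv x₀.1 g 0 : F) : ℂ) = 1
    rw [yv_zero, h0]
    rfl
  refine ⟨?_, ?_, ?_⟩
  · intro h
    rw [h] at hy0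
    simp at hy0
  · refine IntermediateField.adjoin_le_iff.2 ?_
    rintro a ⟨i, j, rfl⟩
    exact F.div_mem (y i).2 (y j).2
  · refine alg_trans x₀.2.1.2.2 (alg_adjoin ?_)
    -- every coordinate of x₀ is algebraic
    have key : ∀ i, IsAlgebraic (ratioField K (cv y)) (cv x₀.1 i) := by
      intro i
      by_cases hi : i = 1
      · subst hi
        refine alg_of_zpow hw ?_
        have e1 : (g : ℂ) = (∏ j, (cv x₀.1 (Fin.succ j)) ^ w (Sum.inl j)) *
            ∏ j, (algebraMap K ℂ (c j)) ^ w (Sum.inr j) := by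
          rw [hg]
          unfold chr tor
          rw [Fintype.prod_sum_type]
          push_cast
          rfl
        have e2 : (∏ j, (cv x₀.1 (Fin.succ j)) ^ w (Sum.inl j)) =
            (cv x₀.1 1) ^ w (Sum.inl 0) * ∏ j : Fin N, (cv x₀.1 (Fin.succ (Fin.succ j))) ^ w (Sum.inl (Fin.succ j)) := by
          rw [Fin.prod_univ_succ]
          rfl
        have hg' : (g : ℂ) ∈ ratioField K (cv y) := by
          have := mem_ratio (K := K) hy0 1
          have e : cv y 1 = (g : ℂ) := by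
            change ((yv x₀.1 g 1 : F) : ℂ) = g
            rw [yv_one]
          rwa [e] at this
        have hA : (∏ j : Fin N, (cv x₀.1 (Fin.succ (Fin.succ j))) ^ w (Sum.inl (Fin.succ j))) ∈
            ratioField K (cv y) := by
          refine prod_mem fun j _ => zpow_mem ?_ _
          have := mem_ratio (K := K) hy0 (Fin.succ (Fin.succ j))
          have e : cv y (Fin.succ (Fin.succ j)) = cv x₀.1 (Fin.succ (Fin.succ j)) := by
            change ((yv x₀.1 g (Fin.succ (Fin.succ j)) : F) : ℂ) = (x₀.1 (Fin.succ (Fin.succ j)) : ℂ)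
            rw [yv_other]
            intro h
            have := congrArg Fin.val h
            simp at this
          rwa [e] at this
        have hB : (∏ j, (algebraMap K ℂ (c j)) ^ w (Sum.inr j)) ∈ ratioField K (cv y) :=
          prod_mem fun j _ => zpow_mem ((ratioField K (cv y)).algebraMap_mem (c j)) _
        have hA0 : (∏ j : Fin N, (cv x₀.1 (Fin.succ (Fin.succ j))) ^ w (Sum.inl (Fin.succ j))) ≠ 0 := by
          refine Finset.prod_ne_zero_iff.2 fun j _ => zpow_ne_zero _ ?_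
          change ((x₀.1 (Fin.succ (Fin.succ j)) : F) : ℂ) ≠ 0
          exact_mod_cast hx _
        have hB0 : (∏ j, (algebraMap K ℂ (c j)) ^ w (Sum.inr j)) ≠ 0 := by
          refine Finset.prod_ne_zero_iff.2 fun j _ => zpow_ne_zero _ ?_
          exact (map_ne_zero _).2 (hc j)
        have e3 : (cv x₀.1 1) ^ w (Sum.inl 0) = (g : ℂ) /
            ((∏ j : Fin N, (cv x₀.1 (Fin.succ (Fin.succ j))) ^ w (Sum.inl (Fin.succ j))) *
              ∏ j, (algebraMap K ℂ (c j)) ^ w (Sum.inr j)) := by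
          rw [eq_div_iff (mul_ne_zero hA0 hB0), e1, e2]
          ring
        rw [e3]
        exact div_mem hg' (mul_mem hA hB)
      · have := mem_ratio (K := K) hy0 i
        have e : cv y i = cv x₀.1 i := by
          change ((yv x₀.1 g i : F) : ℂ) = (x₀.1 i : ℂ)
          rw [yv_other _ _ _ hi]
        rw [e] at this
        exact isAlgebraic_algebraMap (⟨_, this⟩ : ratioField K (cv y))
    rintro a ⟨i, j, rfl⟩
    rw [div_eq_mul_inv]
    exact (key i).mul (key j).inv

theorem hV_le {M : ℕ} (b : BV F M) (v : Place F) (j : Fin (M + 1)) (hj : b.1 j ≠ 0) :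
    Real.log (v.1 (b.1 j)) ≤ hV F b v := by
  refine Real.log_le_log (v.1.pos hj) ?_
  exact le_ciSup (f := fun j => v.1 (b.1 j)) (Finite.bddAbove_range _) j

theorem hV_nonneg {M : ℕ} (b : BV F M) (v : Place F) : 0 ≤ hV F b v := by
  obtain ⟨j, hj⟩ := b.2.2
  have := hV_le b v j (by rw [hj]; exact one_ne_zero)
  rwa [hj, map_one, Real.log_one] at this

theorem hV_attained {M : ℕ} (b : BV F M) (v : Place F) : ∃ j, hV F b v = Real.log (v.1 (b.1 j)) := by
  obtain ⟨j, hj⟩ := exists_eq_ciSup_of_finite (f := fun j => v.1 (b.1 j))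
  exact ⟨j, by unfold hV vn; rw [← hj]⟩

theorem log_chr {σ : Type} [Fintype σ] (ξ : σ → F) (hξ : ∀ s, ξ s ≠ 0) (w : σ → ℤ) (v : Place F) :
    Real.log (v.1 (chr ξ w)) = ∑ s, (w s : ℝ) * LL ξ v s := by
  unfold chr LL
  rw [map_prod, Real.log_prod fun s _ => (v.1.pos (zpow_ne_zero _ (hξ s))).ne']
  refine Finset.sum_congr rfl fun s _ => ?_
  rw [map_zpow₀, Real.log_zpow]

end

theorem exists_int (t : ℝ) : ∃ n : ℤ, n ≠ 0 ∧ |(n : ℝ) - t| ≤ 1 := by
  by_cases h : ⌊t⌋ = 0
  · refine ⟨1, one_ne_zero, ?_⟩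
    have h1 := Int.floor_le t
    have h2 := Int.lt_floor_add_one t
    rw [h] at h1 h2
    push_cast at *
    rw [abs_le]
    constructor <;> linarith
  · refine ⟨⌊t⌋, h, ?_⟩
    have h1 := Int.floor_le t
    have h2 := Int.lt_floor_add_one t
    rw [abs_le]
    constructor <;> linarith

theorem tln : S_TLN := by
  intro K _ _ _ F N x₀ c Γ Γ' h0 hx hc hΓ hΓ' hcc w ε hε
  have hξ : ∀ s, tor x₀ c s ≠ 0 := by
    rintro (j | j)
    · exact hx _
    · exact (map_ne_zero _).2 (hc j)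
  have hcst : ∀ v, 0 ≤ cst F Γ Γ' v := fun v => (abs_nonneg _).trans (hcc v 0)
  obtain ⟨Q, hQ⟩ := exists_nat_gt ((4 * (N : ℝ) + 6) / ε)
  have hQ1 : 4 * (N : ℝ) + 6 < Q * ε := by rwa [div_lt_iff₀ hε] at hQ
  have hN : (0 : ℝ) ≤ N := Nat.cast_nonneg N
  have hQ0 : (0 : ℝ) < Q := by
    have : (0 : ℝ) < (4 * (N : ℝ) + 6) / ε := by positivity
    linarith
  have hQ0' : 0 < Q := by exact_mod_cast hQ0
  choose w' hw' hw'' using fun s => exists_int (Q * w s)
  set g := chr (tor x₀ c) w' with hg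
  have hg0 : g ≠ 0 := Finset.prod_ne_zero_iff.2 fun s _ => zpow_ne_zero _ (hξ s)
  let y : BV F (N + 1) := ⟨yv x₀.1 g, big_yv x₀ c h0 hx hc w' (hw' _), 0, by rw [yv_zero, h0]⟩
  have hy0 : y.1 0 = 1 := by
    change yv x₀.1 g 0 = 1
    rw [yv_zero, h0]
  have hy1 : y.1 1 = g := by
    change yv x₀.1 g 1 = g
    rw [yv_one]
  -- notation
  set L := fun v => LL (tor x₀ c) v with hL
  set ell : Place F → ℝ := fun v => Real.log (v.1 g) with hell
  set u : Place F → ℝ := fun v => ∑ s, w s * L v s with hu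
  set p₀ : Place F → ℝ := fun v => ∑ j : Fin (N + 1), Real.log (v.1 (x₀.1 j.succ)) with hp₀
  have hellPr : ell ∈ Pr F := ⟨g, hg0, fun v => rfl⟩
  have hp₀Pr : p₀ ∈ Pr F := by
    refine ⟨∏ j : Fin (N + 1), x₀.1 j.succ, Finset.prod_ne_zero_iff.2 fun j _ => hx _, fun v => ?_⟩
    rw [map_prod, Real.log_prod fun j _ => (v.1.pos (hx _)).ne']
  -- the local estimates
  have a1 : ∀ v, |ell v - Q * u v| ≤ ∑ s, |L v s| := by
    intro v
    have e : ell v - Q * u v = ∑ s, ((w' s : ℝ) - Q * w s) * L v s := by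
      rw [hell, hu]
      simp only
      rw [hg, log_chr _ hξ, Finset.mul_sum, ← Finset.sum_sub_distrib]
      refine Finset.sum_congr rfl fun s _ => ?_
      ring
    rw [e]
    refine (Finset.abs_sum_le_sum_abs _ _).trans (Finset.sum_le_sum fun s _ => ?_)
    rw [abs_mul]
    exact mul_le_of_le_one_left (abs_nonneg _) (hw'' s)
  have a2 : ∀ v, ∑ s, |L v s| ≤ 2 * (N + 1) * hV F x₀ v - p₀ v + (N + 1) * cst F Γ Γ' v := by
    intro v
    rw [Fintype.sum_sum_type]
    have b1 : ∑ j : Fin (N + 1), |L v (Sum.inl j)| ≤ 2 * (N + 1) * hV F x₀ v - p₀ v := by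
      have : ∑ j : Fin (N + 1), |L v (Sum.inl j)| ≤
          ∑ j : Fin (N + 1), (2 * hV F x₀ v - Real.log (v.1 (x₀.1 j.succ))) := by
        refine Finset.sum_le_sum fun j _ => ?_
        change |Real.log (v.1 (x₀.1 j.succ))| ≤ _
        have c1 := hV_le x₀ v j.succ (hx _)
        have c2 := hV_nonneg x₀ v
        rw [abs_le]
        constructor <;> linarith
      refine this.trans (le_of_eq ?_)
      rw [Finset.sum_sub_distrib, Finset.sum_const, Finset.card_univ, Fintype.card_fin, nsmul_eq_mul]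
      push_cast
      ring
    have b2 : ∑ j : Fin (N + 1), |L v (Sum.inr j)| ≤ (N + 1) * cst F Γ Γ' v := by
      have : ∑ j : Fin (N + 1), |L v (Sum.inr j)| ≤ ∑ _j : Fin (N + 1), cst F Γ Γ' v :=
        Finset.sum_le_sum fun j _ => hcc v j
      refine this.trans (le_of_eq ?_)
      rw [Finset.sum_const, Finset.card_univ, Fintype.card_fin, nsmul_eq_mul]
      push_cast
      ring
    linarith
  have a3 : ∀ v, 2 * hV F y v ≤ |ell v| + ell v + 2 * hV F x₀ v := by
    intro v
    have c2 := hV_nonneg x₀ v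
    have c3 : -ell v ≤ |ell v| := neg_le_abs _
    have c4 : ell v ≤ |ell v| := le_abs_self _
    obtain ⟨j, hj⟩ := hV_attained y v
    rw [hj]
    by_cases hj1 : j = 1
    · rw [hj1, hy1]
      change 2 * ell v ≤ _
      linarith
    · have e : y.1 j = x₀.1 j := yv_other _ _ _ hj1
      rw [e]
      have := hV_le x₀ v j (hx j)
      linarith
  have a4 : ∀ v, |ell v| + ell v ≤ 2 * hV F y v := by
    intro v
    have c1 := hV_nonneg y v
    have c2 : ell v ≤ hV F y v := by
      have := hV_le y v 1 (by rw [hy1]; exact hg0)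
      rwa [hy1] at this
    rcases abs_cases (ell v) with ⟨h, _⟩ | ⟨h, _⟩ <;> rw [h] <;> linarith
  have a5 : ∀ v, |ell v| - ∑ s, |L v s| ≤ Q * |u v| ∧ Q * |u v| ≤ |ell v| + ∑ s, |L v s| := by
    intro v
    have h1 := a1 v
    have h2 : |Q * u v| = Q * |u v| := by rw [abs_mul, abs_of_pos hQ0]
    have h3 : |ell v| - |Q * u v| ≤ |ell v - Q * u v| := abs_sub_abs_le_abs_sub _ _
    have h4 : |Q * u v| - |ell v| ≤ |Q * u v - ell v| := abs_sub_abs_le_abs_sub _ _
    rw [abs_sub_comm (Q * u v)] at h4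
    rw [h2] at h3 h4
    constructor <;> linarith
  refine ⟨Finsupp.single (some y) (2 / (Q : ℝ)) + Finsupp.single (some x₀) (2 * ((N : ℝ) + 1) / Q) +
    Finsupp.single (none : Option (BV F (N + 1))) (((N : ℝ) + 1) / Q), ?_, ?_, ?_⟩
  · intro b
    have e0 : ∀ (a : Option (BV F (N + 1))) (r : ℝ), 0 ≤ r → 0 ≤ Finsupp.single a r b := by
      classical
      intro a r hr
      rw [Finsupp.single_apply]
      split_ifs
      · exact hr
      · exact le_rfl
    rw [Finsupp.add_apply, Finsupp.add_apply]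
    exact add_nonneg (add_nonneg (e0 _ _ (by positivity)) (e0 _ _ (by positivity))) (e0 _ _ (by positivity))
  · refine ⟨Q, hQ0', ell + p₀, (Pr F).add_mem hellPr hp₀Pr, fun v => ?_⟩
    rw [hc_add, hc_add, hc_single, hc_single, hc_single, Pi.add_apply]
    change (Q : ℝ) * |u v| + (ell v + p₀ v) ≤ Q * (2 / Q * hV F y v + 2 * (N + 1) / Q * hV F x₀ v +
      (N + 1) / Q * cst F Γ Γ' v)
    have e : (Q : ℝ) * (2 / Q * hV F y v + 2 * (N + 1) / Q * hV F x₀ v +
      (N + 1) / Q * cst F Γ Γ' v) = 2 * hV F y v + 2 * (N + 1) * hV F x₀ v + (N + 1) * cst F Γ Γ' v := by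
      field_simp
    rw [e]
    have := a2 v
    have := a4 v
    have := (a5 v).2
    linarith
  · refine ⟨Q, hQ0', p₀ - ell, (Pr F).sub_mem hp₀Pr hellPr, fun v => ?_⟩
    beta_reduce
    rw [hc_add, hc_add, hc_add, hc_single, hc_single, hc_single, hc_single, hc_single, Pi.sub_apply]
    change (Q : ℝ) * (2 / Q * hV F y v + 2 * (N + 1) / Q * hV F x₀ v +
      (N + 1) / Q * cst F Γ Γ' v) + (p₀ v - ell v) ≤ Q * (|u v| + ε * (1 * hV F x₀ v + 1 * cst F Γ Γ' v))
    have e : (Q : ℝ) * (2 / Q * hV F y v + 2 * (N + 1) / Q * hV F x₀ v +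
      (N + 1) / Q * cst F Γ Γ' v) = 2 * hV F y v + 2 * (N + 1) * hV F x₀ v + (N + 1) * cst F Γ Γ' v := by
      field_simp
    rw [e]
    have h1 := a2 v
    have h2 := a3 v
    have h3 := (a5 v).1
    have h4 := hV_nonneg x₀ v
    have h5 := hcst v
    have h6 : (4 * (N : ℝ) + 6) * (hV F x₀ v + cst F Γ Γ' v) ≤ Q * ε * (hV F x₀ v + cst F Γ Γ' v) :=
      mul_le_mul_of_nonneg_right hQ1.le (by linarith)
    nlinarith [mul_nonneg hN h5]

end Pool.Agent.Helper77.AD
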